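import Pool.Agent.R632.FGMax

/-! A finitely generated branch group `G` on the ternary tree and a branch subgroup `H` of infinite
index such that every maximal subgroup of `G` containing `H` has finite index in `G`. -/

namespace Pool.Agent.Results.MP_9e467c_al.BranchNotInMaximal

open Equiv Pool.Agent.R632.Port Pool.Agent.R632.FG

/-- Automorphisms of the rooted tree of the words over the alphabet `X`: permutations of the words
which preserve the length and the relation of being an initial segment. -/
def IsTreeAut {X : Type} (g : Perm (List X)) : Prop :=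
  (∀ w, (g w).length = w.length) ∧ ∀ v w, g v <+: g w ↔ v <+: w

/-- The rigid stabiliser of the vertex `v` : the elements of `K` fixing every word outside the
subtree with root `v`. -/
def rist {X : Type} (K : Subgroup (Perm (List X))) (v : List X) : Set (Perm (List X)) :=
  {g | g ∈ K ∧ ∀ w, ¬ v <+: w → g w = w}

/-- The rigid stabiliser of level `n`. -/
def Rist {X : Type} (K : Subgroup (Perm (List X))) (n : ℕ) : Subgroup (Perm (List X)) :=
  Subgroup.closure {g | ∃ v : List X, v.length = n ∧ g ∈ rist K v}

/-- Branch groups of automorphisms of the tree of the words over `X`. -/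
def IsBranch {X : Type} (K : Subgroup (Perm (List X))) : Prop :=
  (∀ g ∈ K, IsTreeAut g) ∧ (∀ v w : List X, v.length = w.length → ∃ g ∈ K, g v = w) ∧
    ∀ n, (Rist K n).relIndex K ≠ 0

/-- `M` is a maximal subgroup of `G`. -/
def IsMaximalIn {A : Type} [Group A] (M G : Subgroup A) : Prop :=
  M < G ∧ ∀ N : Subgroup A, M < N → N ≤ G → N = G

lemma isBranch_map {K : Subgroup WW} (hK : W.Nice K) : IsBranch (K.map W.toPerm) := by
  refine ⟨?_, ?_, ?_⟩
  · rintro _ ⟨g, _, rfl⟩
    refine ⟨fun w => g.act_length w, fun v w => ⟨fun h => ?_, fun h => g.act_prefix h⟩⟩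
    have h1 := (g⁻¹).act_prefix (show g.act v <+: g.act w from h)
    rwa [W.act_inv_act, W.act_inv_act] at h1
  · intro v w hvw
    obtain ⟨k, hk, hkv⟩ := hK.transitive v w hvw
    exact ⟨_, ⟨k, hk, rfl⟩, hkv⟩
  · intro n h
    have h1 : (W.RistW K n).map W.toPerm ≤ Rist (K.map W.toPerm) n := by
      unfold W.RistW
      rw [MonoidHom.map_closure]
      apply Subgroup.closure_mono
      rintro _ ⟨g, ⟨hg, v, hv, hw⟩, rfl⟩
      exact ⟨v, hv, ⟨g, hg, rfl⟩, hw⟩
    have h2 := Subgroup.relIndex_eq_zero_of_le_left h1 h
    rw [Subgroup.relIndex_map_map_of_injective _ _ W.toPerm_injective] at h2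
    exact hK.rist n h2

lemma fg_map {A B : Type} [Group A] [Group B] (f : A →* B) {K : Subgroup A} (h : K.FG) :
    (K.map f).FG := by
  rw [Subgroup.fg_iff] at h ⊢
  obtain ⟨S, rfl, hS⟩ := h
  exact ⟨f '' S, (MonoidHom.map_closure f S).symm, hS.image f⟩

/-- There are a finitely generated branch group `G` on the ternary rooted tree and a (finitely
generated) branch subgroup `H` of infinite index in `G` such that every maximal subgroup of `G`
which contains `H` has finite index in `G`. -/
theorem result : ∃ G H : Subgroup (Perm (List (ZMod 3))),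
    G.FG ∧ IsBranch G ∧ H.FG ∧ IsBranch H ∧ H ≤ G ∧ H.relIndex G = 0 ∧
      ∀ M : Subgroup (Perm (List (ZMod 3))), IsMaximalIn M G → H ≤ M → M.relIndex G ≠ 0 := by
  refine ⟨G.map W.toPerm, H.map W.toPerm, fg_map _ fg, isBranch_map G_nice,
    fg_map _ fg, isBranch_map H_nice, Subgroup.map_mono H_le_G, ?_, ?_⟩
  · rw [Subgroup.relIndex_map_map_of_injective _ _ W.toPerm_injective]
    exact infinite_index
  · rintro M ⟨hMG, hmax⟩ hHM
    have h1 : (M.comap W.toPerm).map W.toPerm = M :=
      Subgroup.map_comap_eq_self (hMG.le.trans (by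
        rintro _ ⟨g, _, rfl⟩
        exact ⟨g, rfl⟩))
    rw [← h1] at hMG hmax hHM ⊢
    rw [Subgroup.map_lt_map_iff_of_injective W.toPerm_injective] at hMG
    rw [Subgroup.map_le_map_iff_of_injective W.toPerm_injective] at hHM
    rw [Subgroup.relIndex_map_map_of_injective _ _ W.toPerm_injective]
    apply maximal_index hHM hMG
    intro N hN hNG
    apply Subgroup.map_injective W.toPerm_injective
    apply hmax
    · rw [Subgroup.map_lt_map_iff_of_injective W.toPerm_injective]
      exact hN
    · exact Subgroup.map_mono hNG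

end Pool.Agent.Results.MP_9e467c_al.BranchNotInMaximal
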